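import Pool.Agent.Lib.H52TF.Ex

/-!
# Sets which are not covered by disjoint cycles, and the functor of T-parts (plane 2-factors, MP_33911d)

`TG G T`: every `F` in `Fam G T` has less than `2 |T|` edge ends in `T`. `Cov G W`: `W` is covered by disjoint cycles.
* `keyA`: if `W` is neither covered nor in `TG`, then `W` without the vertices of degree `≥ 3` of a suitable `F` is not
  covered.
* `exists_TG`: if `W` is not covered, some subset of `W` is in `TG`.
* `partner` (helper66's lemma (R')): if `W` is not in `TG` but contains a member of `TG`, then it contains a member `T₁`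
  with `T ∪ T₁ ≠ W` for all `T ⊆ W` in `TG`.
-/

set_option autoImplicit false

namespace H52TF

open Finset

variable {V : Type*} [DecidableEq V]

/-- `W` is covered by vertex-disjoint cycles of `G` -/
def Cov (G : SimpleGraph V) (W : Finset V) : Prop :=
  ∃ F : Finset (Sym2 V), (∀ e ∈ F, e ∈ G.edgeSet) ∧ (∀ v, d F v = 0 ∨ d F v = 2) ∧ ∀ v ∈ W, d F v = 2

/-- the functor of T-parts -/
def TG (G : SimpleGraph V) (T : Finset V) : Prop :=
  ∀ F : Finset (Sym2 V), Fam G T F → ∑ v ∈ T, d F v < 2 * T.card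

/-- many edge ends in `W` -/
structure Good (G : SimpleGraph V) (W : Finset V) (F : Finset (Sym2 V)) : Prop where
  fam : Fam G W F
  big : 2 * W.card ≤ ∑ v ∈ W, d F v

theorem fam_empty (G : SimpleGraph V) (W : Finset V) : Fam G W ∅ :=
  ⟨fun e he => absurd he (Finset.notMem_empty e), fun v _ => Or.inl (d_empty v)⟩

theorem TG_nonempty {G : SimpleGraph V} {T : Finset V} (h : TG G T) : T.Nonempty := by
  by_contra h'
  rw [Finset.not_nonempty_iff_eq_empty] at h'
  subst h'
  have := h ∅ (fam_empty G ∅)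
  simp at this

theorem TG_anti {G G' : SimpleGraph V} (hG : G ≤ G') {T : Finset V} (h : TG G' T) : TG G T :=
  fun F hF => h F ⟨fun e he => SimpleGraph.edgeSet_mono hG (hF.sub e he), hF.off⟩

theorem Cov_empty (G : SimpleGraph V) : Cov G ∅ :=
  ⟨∅, fun e he => absurd he (Finset.notMem_empty e), fun v => Or.inl (d_empty v), fun v hv =>
    absurd hv (Finset.notMem_empty v)⟩

/-- a member of `TG` is not covered -/
theorem not_Cov_of_TG {G : SimpleGraph V} {T W : Finset V} (hT : TG G T) (hTW : T ⊆ W) : ¬ Cov G W := by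
  rintro ⟨F, h1, h2, h3⟩
  have h4 := hT F ⟨h1, fun v _ => h2 v⟩
  have h5 : ∑ v ∈ T, d F v = ∑ v ∈ T, 2 := Finset.sum_congr rfl fun v hv => h3 v (hTW hv)
  rw [h5, Finset.sum_const, smul_eq_mul] at h4
  omega

theorem sum_form {W : Finset V} {f g : V → ℕ} {u v : V} (hu : u ∈ W) (hv : v ∈ W) (a b : ℤ)
    (h : ∀ i ∈ W, (f i : ℤ) = g i + a * (if i = u then 1 else 0) + b * (if i = v then 1 else 0)) :
    ((∑ i ∈ W, f i : ℕ) : ℤ) = ((∑ i ∈ W, g i : ℕ) : ℤ) + a + b := by
  push_cast
  rw [Finset.sum_congr rfl h, Finset.sum_add_distrib, Finset.sum_add_distrib, ← Finset.mul_sum, ← Finset.mul_sum,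
    Finset.sum_ite_eq', Finset.sum_ite_eq', if_pos hu, if_pos hv]
  ring

theorem sum_d [Fintype V] {G : SimpleGraph V} {F : Finset (Sym2 V)} (h : ∀ e ∈ F, e ∈ G.edgeSet) :
    ∑ v : V, d F v = 2 * F.card := by
  have h1 : ∀ v : V, d F v = ∑ e ∈ F, if v ∈ e then 1 else 0 := fun v => by
    rw [d, Finset.card_filter]
  rw [Finset.sum_congr rfl fun v _ => h1 v, Finset.sum_comm]
  have h2 : ∀ e ∈ F, (∑ v : V, if v ∈ e then 1 else 0) = 2 := by
    intro e he
    have h3 := h e he
    induction e with
    | _ a b =>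
    rw [SimpleGraph.mem_edgeSet] at h3
    rw [← Finset.card_filter]
    have h4 : (Finset.univ.filter fun v => v ∈ s(a, b)) = {a, b} := by
      ext v
      simp
    rw [h4, Finset.card_pair h3.ne]
  rw [Finset.sum_congr rfl h2, Finset.sum_const, smul_eq_mul, mul_comm]

theorem even_sum [Fintype V] {G : SimpleGraph V} {W : Finset V} {F : Finset (Sym2 V)} (h : Fam G W F) :
    Even (∑ v ∈ W, d F v) := by
  have h1 := sum_d h.sub
  have h2 : Even (∑ v ∈ Wᶜ, d F v) := by
    refine Finset.even_sum _ fun v hv => ?_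
    rcases h.off v (Finset.mem_compl.1 hv) with h3 | h3 <;> simp [h3]
  have h3 := Finset.sum_add_sum_compl W (fun v => d F v)
  rw [h1] at h3
  obtain ⟨r, hr⟩ := h2
  refine ⟨F.card - r, ?_⟩
  omega

/-- total surplus -/
def surplus (W : Finset V) (F : Finset (Sym2 V)) : ℕ := ∑ v ∈ W, (d F v - 2)

theorem surplus_lt {W : Finset V} {F F' : Finset (Sym2 V)} {y : V} (hy : y ∈ W)
    (h1 : ∀ i ∈ W, d F' i - 2 ≤ d F i - 2) (h2 : d F' y - 2 < d F y - 2) : surplus W F' < surplus W F :=
  Finset.sum_lt_sum h1 ⟨y, hy, h2⟩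

theorem step1 {G : SimpleGraph V} {W : Finset V} {F F₀ : Finset (Sym2 V)} (hF : Good G W F)
    (hmin : ∀ F', Good G W F' → surplus W F ≤ surplus W F') (h₀ : Fam G W F₀) (h₀' : ∀ v ∈ W, d F₀ v ≤ 2)
    {y : V} (hy : y ∈ W) (hy3 : 3 ≤ d F y) :
    ∑ v ∈ W, d F v < 2 * W.card + 2 := by
  by_contra hbig
  rw [not_lt] at hbig
  obtain ⟨F', v, hF', hv, ⟨h1, h2⟩ | ⟨h1, h2⟩⟩ := exch_minus hF.fam h₀ hy
    (lt_of_le_of_lt (h₀' y hy) hy3)
  · have hvy : v ≠ y := by
      rintro rfl
      have := h₀' v hy
      simp only [if_true] at h2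
      omega
    rw [if_neg hvy] at h2
    have h3 := h₀' v hv
    have hs := sum_form hy hv (-1) 1 (f := fun i => d F' i) (g := fun i => d F i) (fun i hi => by
      rw [h1 i hi]
      ring)
    have hg : Good G W F' := ⟨hF', by
      have := hF.big
      omega⟩
    refine absurd (hmin F' hg) (not_le.2 (surplus_lt hy (fun i hi => ?_) ?_))
    · have h4 := h1 i hi
      by_cases hiv : i = v
      · subst hiv
        rw [if_neg hvy, if_pos rfl] at h4
        omega
      · rw [if_neg hiv] at h4
        split_ifs at h4 <;> omega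
    · have h4 := h1 y hy
      rw [if_pos rfl, if_neg hvy.symm] at h4
      omega
  · have hs := sum_form hy hv (-1) (-1) (f := fun i => d F' i) (g := fun i => d F i) (fun i hi => by
      rw [h1 i hi]
      ring)
    have hg : Good G W F' := ⟨hF', by
      omega⟩
    refine absurd (hmin F' hg) (not_le.2 (surplus_lt hy (fun i hi => ?_) ?_))
    · have h4 := h1 i hi
      split_ifs at h4 <;> omega
    · have h4 := h1 y hy
      rw [if_pos rfl] at h4
      split_ifs at h4 <;> omega

theorem keyA [Fintype V] {G : SimpleGraph V} {W : Finset V} (hW : ¬ Cov G W) (hT : ¬ TG G W) :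
    ∃ F, Good G W F ∧ (∃ v ∈ W, 3 ≤ d F v) ∧ ¬ Cov G (W.filter fun v => d F v ≤ 2) := by
  classical
  have hex : ∃ n, ∃ F, Good G W F ∧ surplus W F = n := by
    unfold TG at hT
    push Not at hT
    obtain ⟨F, h1, h2⟩ := hT
    exact ⟨_, F, ⟨h1, h2⟩, rfl⟩
  obtain ⟨F, hF, hFn⟩ := Nat.find_spec hex
  have hmin : ∀ F', Good G W F' → surplus W F ≤ surplus W F' := fun F' hF' => by
    rw [hFn]
    exact Nat.find_min' hex ⟨F', hF', rfl⟩
  have hy : ∃ v ∈ W, 3 ≤ d F v := by
    by_contra hno
    push Not at hno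
    refine hW ⟨F, hF.fam.sub, fun v => ?_, fun v hv => ?_⟩
    · by_cases hv : v ∈ W
      · right
        have h1 : ∑ i ∈ W, d F i ≤ ∑ i ∈ W, 2 := Finset.sum_le_sum fun i hi => by
          have := hno i hi
          omega
        have h2 : ∑ i ∈ W, d F i = ∑ i ∈ W, 2 := le_antisymm h1 (by
          rw [Finset.sum_const, smul_eq_mul, mul_comm]
          exact hF.big)
        exact (Finset.sum_eq_sum_iff_of_le fun i hi => by
          have := hno i hi
          omega).1 h2 v hv
      · exact hF.fam.off v hv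
    · have h1 : ∑ i ∈ W, d F i ≤ ∑ i ∈ W, 2 := Finset.sum_le_sum fun i hi => by
        have := hno i hi
        omega
      have h2 : ∑ i ∈ W, d F i = ∑ i ∈ W, 2 := le_antisymm h1 (by
        rw [Finset.sum_const, smul_eq_mul, mul_comm]
        exact hF.big)
      exact (Finset.sum_eq_sum_iff_of_le fun i hi => by
        have := hno i hi
        omega).1 h2 v hv
  refine ⟨F, hF, hy, ?_⟩
  rintro ⟨F₀, g1, g2, g3⟩
  obtain ⟨y, hyW, hy3⟩ := hy
  have h₀ : Fam G W F₀ := ⟨g1, fun v _ => g2 v⟩
  have h₀' : ∀ v ∈ W, d F₀ v ≤ 2 := fun v _ => by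
    rcases g2 v with h | h <;> omega
  have hc : ∀ v ∈ W, d F v ≤ 2 → d F₀ v = 2 := fun v hv h => g3 v (Finset.mem_filter.2 ⟨hv, h⟩)
  have hs1 := step1 hF hmin h₀ h₀' hyW hy3
  have hpar := even_sum hF.fam
  have hs2 : ∑ v ∈ W, d F v = 2 * W.card := by
    obtain ⟨r, hr⟩ := hpar
    have := hF.big
    omega
  obtain ⟨w, hw, hw2⟩ : ∃ w ∈ W, d F w < 2 := by
    by_contra hno
    push Not at hno
    have h1 : ∑ i ∈ W, 2 < ∑ i ∈ W, d F i := Finset.sum_lt_sum hno ⟨y, hyW, by omega⟩
    rw [Finset.sum_const, smul_eq_mul, mul_comm] at h1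
    omega
  have hw0 : d F₀ w = 2 := hc w hw (by omega)
  obtain ⟨F', v, hF', hv, ⟨h1, h2⟩ | ⟨h1, h2⟩⟩ := exch_plus hF.fam h₀ hw (by omega)
  · have h3 := h₀' v hv
    have hs := sum_form hw hv 1 1 (f := fun i => d F' i) (g := fun i => d F i) (fun i hi => by
      rw [h1 i hi]
      ring)
    have hg : Good G W F' := ⟨hF', by omega⟩
    have hsur : surplus W F' = surplus W F := Finset.sum_congr rfl fun i hi => by
      have h4 := h1 i hi
      by_cases hiw : i = w
      · subst hiw
        rw [if_pos rfl] at h4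
        split_ifs at h4 with h5
        · subst h5
          rw [if_pos rfl] at h2
          omega
        · omega
      · rw [if_neg hiw] at h4
        split_ifs at h4 with h5
        · subst h5
          rw [if_neg hiw] at h2
          omega
        · omega
    have hge : ∀ i ∈ W, d F i ≤ d F' i := fun i hi => by
      have h4 := h1 i hi
      split_ifs at h4 <;> omega
    have := step1 hg (fun F'' h'' => by
      rw [hsur]
      exact hmin F'' h'') h₀ h₀' hyW (hy3.trans (hge y hyW))
    omega
  · have hvw : v ≠ w := by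
      rintro rfl
      rw [if_pos rfl] at h2
      omega
    rw [if_neg hvw] at h2
    have hv3 : 3 ≤ d F v := by
      by_contra h
      have := hc v hv (by omega)
      omega
    have hs := sum_form hw hv 1 (-1) (f := fun i => d F' i) (g := fun i => d F i) (fun i hi => by
      rw [h1 i hi]
      ring)
    have hg : Good G W F' := ⟨hF', by omega⟩
    refine absurd (hmin F' hg) (not_le.2 (surplus_lt hv (fun i hi => ?_) ?_))
    · have h4 := h1 i hi
      by_cases hiw : i = w
      · subst hiw
        rw [if_pos rfl, if_neg hvw.symm] at h4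
        omega
      · rw [if_neg hiw] at h4
        split_ifs at h4 <;> omega
    · have h4 := h1 v hv
      rw [if_neg hvw, if_pos rfl] at h4
      omega

theorem exists_TG [Fintype V] {G : SimpleGraph V} : ∀ (n : ℕ) (W : Finset V), W.card = n → ¬ Cov G W →
    ∃ T, T ⊆ W ∧ TG G T := by
  intro n
  induction n using Nat.strong_induction_on with
  | _ n ih =>
  intro W hn hW
  by_cases hT : TG G W
  · exact ⟨W, Finset.Subset.refl W, hT⟩
  · obtain ⟨F, -, ⟨v, hv, hv3⟩, h⟩ := keyA hW hT
    obtain ⟨T, h1, h2⟩ := ih _ (by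
      rw [← hn]
      refine Finset.card_lt_card ⟨Finset.filter_subset _ _, fun hsub => ?_⟩
      have := (Finset.mem_filter.1 (hsub hv)).2
      omega) _ rfl h
    exact ⟨T, h1.trans (Finset.filter_subset _ _), h2⟩

theorem drop {G : SimpleGraph V} {T W : Finset V} (hTW : T ⊆ W) : ∀ (n : ℕ) (F : Finset (Sym2 V)),
    ∑ v ∈ W, d F v = n → Fam G W F → (∀ v ∈ W \ T, d F v ≤ 2) →
    2 * T.card + ((W \ T).filter fun v => d F v = 1).card ≤ ∑ v ∈ T, d F v →
    ¬ TG G T := by
  intro n
  induction n using Nat.strong_induction_on with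
  | _ n ih =>
  intro F hn hF h2 h3 hTG
  by_cases hO : ((W \ T).filter fun v => d F v = 1) = ∅
  · rw [hO, Finset.card_empty] at h3
    have hoff : Fam G T F := ⟨hF.sub, fun v hv => by
      by_cases hvW : v ∈ W
      · have h4 := h2 v (Finset.mem_sdiff.2 ⟨hvW, hv⟩)
        have h5 : d F v ≠ 1 := fun h => by
          have h6 : v ∈ (W \ T).filter fun v => d F v = 1 :=
            Finset.mem_filter.2 ⟨Finset.mem_sdiff.2 ⟨hvW, hv⟩, h⟩
          rw [hO] at h6
          exact Finset.notMem_empty _ h6
        omega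
      · exact hF.off v hvW⟩
    have := hTG F hoff
    omega
  · obtain ⟨v, hv⟩ := Finset.nonempty_iff_ne_empty.2 hO
    obtain ⟨hv1, hv2⟩ := Finset.mem_filter.1 hv
    obtain ⟨hvW, hvT⟩ := Finset.mem_sdiff.1 hv1
    obtain ⟨F', u, hF', hu, ⟨h4, h5⟩ | ⟨h4, h5⟩⟩ := exch_minus hF (fam_empty G W) hvW (by
      rw [d_empty]
      omega)
    · rw [d_empty] at h5
      split_ifs at h5 with h6
      · subst h6
        omega
      · omega
    · rw [d_empty] at h5
      have huv : u ≠ v := by
        rintro rfl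
        rw [if_pos rfl] at h5
        omega
      rw [if_neg huv] at h5
      have hs := sum_form hvW hu (-1) (-1) (f := fun i => d F' i) (g := fun i => d F i) (fun i hi => by
        rw [h4 i hi]
        ring)
      have h6 : (v ∉ (W \ T).filter fun i => d F' i = 1) := fun h => by
        have h7 := (Finset.mem_filter.1 h).2
        have h8 := h4 v hvW
        rw [if_pos rfl, if_neg huv.symm] at h8
        omega
      refine ih _ (by omega) F' rfl hF' (fun i hi => ?_) ?_ hTG
      · have h7 := h4 i (Finset.mem_sdiff.1 hi).1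
        have h8 := h2 i hi
        split_ifs at h7 <;> omega
      · by_cases huT : u ∈ T
        · have h7 : ((∑ i ∈ T, d F' i : ℕ) : ℤ) = ((∑ i ∈ T, d F i : ℕ) : ℤ) - 1 := by
            have h8 : ∀ i ∈ T, (d F' i : ℤ) = d F i - (if i = u then 1 else 0) := fun i hi => by
              have h9 := h4 i (hTW hi)
              rw [if_neg (show ¬ i = v from fun h => hvT (h ▸ hi)), sub_zero] at h9
              exact h9
            push_cast
            rw [Finset.sum_congr rfl h8, Finset.sum_sub_distrib, Finset.sum_ite_eq', if_pos huT]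
          have h8 : ((W \ T).filter fun i => d F' i = 1) ⊆ ((W \ T).filter fun i => d F i = 1).erase v := by
            intro i hi
            have hiv : i ≠ v := fun h => h6 (h ▸ hi)
            obtain ⟨h9, h10⟩ := Finset.mem_filter.1 hi
            have h11 := h4 i (Finset.mem_sdiff.1 h9).1
            rw [if_neg hiv, if_neg (show ¬ i = u from fun h => (Finset.mem_sdiff.1 h9).2 (h ▸ huT))] at h11
            exact Finset.mem_erase.2 ⟨hiv, Finset.mem_filter.2 ⟨h9, by omega⟩⟩
          have h9 := Finset.card_le_card h8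
          rw [Finset.card_erase_of_mem hv] at h9
          have h10 := Finset.card_pos.2 ⟨v, hv⟩
          omega
        · have h7 : ∑ i ∈ T, d F' i = ∑ i ∈ T, d F i := Finset.sum_congr rfl fun i hi => by
            have h9 := h4 i (hTW hi)
            rw [if_neg (show ¬ i = v from fun h => hvT (h ▸ hi)), if_neg (show ¬ i = u from fun h => huT (h ▸ hi))] at h9
            omega
          have h8 : ((W \ T).filter fun i => d F' i = 1) ⊆
              insert u (((W \ T).filter fun i => d F i = 1).erase v) := by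
            intro i hi
            have hiv : i ≠ v := fun h => h6 (h ▸ hi)
            by_cases hiu : i = u
            · subst hiu
              exact Finset.mem_insert_self _ _
            obtain ⟨h9, h10⟩ := Finset.mem_filter.1 hi
            have h11 := h4 i (Finset.mem_sdiff.1 h9).1
            rw [if_neg hiv, if_neg hiu] at h11
            exact Finset.mem_insert_of_mem (Finset.mem_erase.2 ⟨hiv, Finset.mem_filter.2 ⟨h9, by omega⟩⟩)
          have h9 := (Finset.card_le_card h8).trans (Finset.card_insert_le _ _)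
          rw [Finset.card_erase_of_mem hv] at h9
          have h10 := Finset.card_pos.2 ⟨v, hv⟩
          omega

/-- **(R')** -/
theorem partner [Fintype V] {G : SimpleGraph V} {W T₀ : Finset V} (hW : ¬ TG G W) (hT₀ : TG G T₀) (h₀ : T₀ ⊆ W) :
    ∃ T₁, T₁ ⊆ W ∧ TG G T₁ ∧ ∀ T, T ⊆ W → TG G T → T ∪ T₁ ≠ W := by
  obtain ⟨F, hF, -, h⟩ := keyA (not_Cov_of_TG hT₀ h₀) hW
  obtain ⟨T₁, h1, h2⟩ := exists_TG _ _ rfl h
  refine ⟨T₁, h1.trans (Finset.filter_subset _ _), h2, fun T hT hTG hU => ?_⟩
  have h3 : ∀ v ∈ W \ T, d F v ≤ 2 := fun v hv => by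
    obtain ⟨h4, h5⟩ := Finset.mem_sdiff.1 hv
    have h6 : v ∈ T ∪ T₁ := by rw [hU]; exact h4
    rcases Finset.mem_union.1 h6 with h7 | h7
    · exact absurd h7 h5
    · exact (Finset.mem_filter.1 (h1 h7)).2
  refine drop hT _ F rfl hF.fam h3 ?_ hTG
  have h4 : ∑ v ∈ W \ T, d F v + ∑ v ∈ T, d F v = ∑ v ∈ W, d F v := Finset.sum_sdiff hT
  have h5 : (W \ T).card + T.card = W.card := Finset.card_sdiff_add_card_eq_card hT
  have h6 : ∑ v ∈ W \ T, d F v + ((W \ T).filter fun v => d F v = 1).card ≤ 2 * (W \ T).card := by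
    rw [Finset.card_filter, ← Finset.sum_add_distrib, mul_comm, ← smul_eq_mul, ← Finset.sum_const]
    refine Finset.sum_le_sum fun v hv => ?_
    have := h3 v hv
    split_ifs <;> omega
  have h7 := hF.big
  omega

end H52TF
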