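import Mathlib

/-!
# Exchange for subgraphs with degrees 0 and 2 outside `W` (plane 2-factors, MP_33911d)

Subgraphs are finite sets of edges `F : Finset (Sym2 V)`. `Fam G W F`: `F` consists of edges of `G` and every vertex
outside `W` has degree `0` or `2` in `F`. The degree vectors on `W` satisfy the two step axiom (`exch_minus`,
`exch_plus`).
-/

set_option autoImplicit false

namespace H52TF

open Finset

variable {V : Type*} [DecidableEq V]

/-- degree of `v` in the edge set `F` -/
def d (F : Finset (Sym2 V)) (v : V) : ℕ := (F.filter fun e => v ∈ e).card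

/-- `F` is a set of edges of `G` in which all vertices outside `W` have degree `0` or `2` -/
structure Fam (G : SimpleGraph V) (W : Finset V) (F : Finset (Sym2 V)) : Prop where
  sub : ∀ e ∈ F, e ∈ G.edgeSet
  off : ∀ v ∉ W, d F v = 0 ∨ d F v = 2

theorem d_empty (v : V) : d (∅ : Finset (Sym2 V)) v = 0 := by simp [d]

theorem d_insert {F : Finset (Sym2 V)} {f : Sym2 V} (h : f ∉ F) (v : V) :
    d (insert f F) v = d F v + if v ∈ f then 1 else 0 := by
  unfold d
  rw [Finset.filter_insert]
  split_ifs with hv
  · rw [Finset.card_insert_of_notMem (fun h' => h (Finset.mem_filter.1 h').1)]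
  · rfl

theorem d_erase {F : Finset (Sym2 V)} {f : Sym2 V} (h : f ∈ F) (v : V) :
    d (F.erase f) v + (if v ∈ f then 1 else 0) = d F v := by
  have h1 := d_insert (F := F.erase f) (f := f) (Finset.notMem_erase f F) v
  rw [Finset.insert_erase h] at h1
  exact h1.symm

theorem exists_diff {F F' : Finset (Sym2 V)} {a : V} (h : d F a < d F' a) : ∃ b, s(a, b) ∈ F' ∧ s(a, b) ∉ F := by
  obtain ⟨e, he, he'⟩ := Finset.exists_mem_notMem_of_card_lt_card h
  rw [Finset.mem_filter] at he
  obtain ⟨b, rfl⟩ := Sym2.mem_iff_exists.1 he.2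
  exact ⟨b, he.1, fun h' => he' (Finset.mem_filter.2 ⟨h', he.2⟩)⟩

theorem walk {G : SimpleGraph V} {W : Finset V} {F₀ : Finset (Sym2 V)} (h₀ : Fam G W F₀) (y : V → ℕ) :
    ∀ (n : ℕ) (F : Finset (Sym2 V)) (a : V), (symmDiff F F₀).card = n → (∀ e ∈ F, e ∈ G.edgeSet) →
      (∀ v ∈ W, v ≠ a → d F v = y v) → (∀ v ∉ W, v ≠ a → d F v = 0 ∨ d F v = 2) →
      ((a ∈ W ∧ (d F a = y a + 1 ∨ d F a + 1 = y a)) ∨ (a ∉ W ∧ (d F a = 1 ∨ d F a = 3))) →
      ∃ (F' : Finset (Sym2 V)) (b : V), Fam G W F' ∧ b ∈ W ∧ (∀ v ∈ W, v ≠ b → d F' v = y v) ∧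
        ((d F' b = y b + 1 ∧ y b < d F₀ b) ∨ (d F' b + 1 = y b ∧ d F₀ b < y b)) := by
  intro n
  induction n using Nat.strong_induction_on with
  | _ n ih =>
  intro F a hn hF h1 h2 h3
  -- adding an edge
  have hadd : d F a < d F₀ a → (a ∈ W → d F a + 1 = y a) → (a ∉ W → d F a = 1) →
      ∃ (F' : Finset (Sym2 V)) (b : V), Fam G W F' ∧ b ∈ W ∧ (∀ v ∈ W, v ≠ b → d F' v = y v) ∧
        ((d F' b = y b + 1 ∧ y b < d F₀ b) ∨ (d F' b + 1 = y b ∧ d F₀ b < y b)) := by
    intro h4 h5 h6
    obtain ⟨b, hb, hb'⟩ := exists_diff h4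
    have hab : a ≠ b := by
      have := h₀.sub _ hb
      rw [SimpleGraph.mem_edgeSet] at this
      exact this.ne
    have hd : ∀ v, d (insert s(a, b) F) v = d F v + if v = a ∨ v = b then 1 else 0 := by
      intro v
      rw [d_insert hb']
      simp only [Sym2.mem_iff]
    refine ih _ ?_ (insert s(a, b) F) b rfl ?_ ?_ ?_ ?_
    · rw [← hn]
      refine Finset.card_lt_card ⟨fun e he => ?_, fun hsub => ?_⟩
      · rw [Finset.mem_symmDiff] at he ⊢
        rcases he with ⟨he1, he2⟩ | ⟨he1, he2⟩
        · rw [Finset.mem_insert] at he1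
          rcases he1 with rfl | he1
          · exact absurd hb he2
          · exact Or.inl ⟨he1, he2⟩
        · exact Or.inr ⟨he1, fun h => he2 (Finset.mem_insert_of_mem h)⟩
      · have := hsub (Finset.mem_symmDiff.2 (Or.inr ⟨hb, hb'⟩))
        rw [Finset.mem_symmDiff] at this
        rcases this with ⟨-, h⟩ | ⟨-, h⟩
        · exact h hb
        · exact h (Finset.mem_insert_self _ _)
    · intro e he
      rcases Finset.mem_insert.1 he with rfl | he
      · exact h₀.sub _ hb
      · exact hF e he
    · intro v hv hvb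
      rw [hd]
      by_cases hva : v = a
      · subst hva
        simp [h5 hv]
      · simp [hva, hvb, h1 v hv hva]
    · intro v hv hvb
      rw [hd]
      by_cases hva : v = a
      · subst hva
        simp [h6 hv]
      · simpa [hva, hvb] using h2 v hv hva
    · rw [hd]
      by_cases hbW : b ∈ W
      · refine Or.inl ⟨hbW, Or.inl ?_⟩
        simp [h1 b hbW hab.symm]
      · refine Or.inr ⟨hbW, ?_⟩
        rcases h2 b hbW hab.symm with h | h <;> simp [h]
  have hrem : d F₀ a < d F a → (a ∈ W → d F a = y a + 1) →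
      ∃ (F' : Finset (Sym2 V)) (b : V), Fam G W F' ∧ b ∈ W ∧ (∀ v ∈ W, v ≠ b → d F' v = y v) ∧
        ((d F' b = y b + 1 ∧ y b < d F₀ b) ∨ (d F' b + 1 = y b ∧ d F₀ b < y b)) := by
    intro h4 h5
    obtain ⟨b, hb, hb'⟩ := exists_diff h4
    have hab : a ≠ b := by
      have := hF _ hb
      rw [SimpleGraph.mem_edgeSet] at this
      exact this.ne
    have hd : ∀ v, d (F.erase s(a, b)) v + (if v = a ∨ v = b then 1 else 0) = d F v := by
      intro v
      have := d_erase hb v
      simp only [Sym2.mem_iff] at this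
      exact this
    refine ih _ ?_ (F.erase s(a, b)) b rfl ?_ ?_ ?_ ?_
    · rw [← hn]
      refine Finset.card_lt_card ⟨fun e he => ?_, fun hsub => ?_⟩
      · rw [Finset.mem_symmDiff] at he ⊢
        rcases he with ⟨he1, he2⟩ | ⟨he1, he2⟩
        · exact Or.inl ⟨Finset.mem_of_mem_erase he1, he2⟩
        · refine Or.inr ⟨he1, fun h => he2 (Finset.mem_erase.2 ⟨?_, h⟩)⟩
          rintro rfl
          exact hb' he1
      · have := hsub (Finset.mem_symmDiff.2 (Or.inl ⟨hb, hb'⟩))
        rw [Finset.mem_symmDiff] at this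
        rcases this with ⟨h, -⟩ | ⟨h, -⟩
        · exact Finset.notMem_erase _ _ h
        · exact hb' h
    · intro e he
      exact hF e (Finset.mem_of_mem_erase he)
    · intro v hv hvb
      have h6 := hd v
      by_cases hva : v = a
      · subst hva
        rw [h5 hv] at h6
        simpa using h6
      · rw [← h1 v hv hva]
        simpa [hva, hvb] using h6
    · intro v hv hvb
      have h6 := hd v
      by_cases hva : v = a
      · subst hva
        rcases h3 with ⟨h, -⟩ | ⟨-, h⟩
        · exact absurd h hv
        · rw [if_pos (Or.inl rfl)] at h6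
          omega
      · have h7 := h2 v hv hva
        rw [if_neg (by tauto)] at h6
        omega
    · have h6 := hd b
      rw [if_pos (Or.inr rfl)] at h6
      by_cases hbW : b ∈ W
      · refine Or.inl ⟨hbW, Or.inr ?_⟩
        rw [h6, h1 b hbW hab.symm]
      · refine Or.inr ⟨hbW, ?_⟩
        have h7 := h2 b hbW hab.symm
        omega
  rcases h3 with ⟨haW, h3 | h3⟩ | ⟨haW, h3⟩
  · by_cases h4 : y a < d F₀ a
    · refine ⟨F, a, ⟨hF, fun v hv => h2 v hv (fun h => hv (h ▸ haW))⟩, haW, h1, Or.inl ⟨h3, h4⟩⟩
    · exact hrem (by omega) (fun _ => h3)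
  · by_cases h4 : d F₀ a < y a
    · refine ⟨F, a, ⟨hF, fun v hv => h2 v hv (fun h => hv (h ▸ haW))⟩, haW, h1, Or.inr ⟨h3, h4⟩⟩
    · exact hadd (by omega) (fun _ => h3) (fun h => absurd haW h)
  · have h5 := h₀.off a haW
    by_cases h6 : d F a < d F₀ a
    · exact hadd h6 (fun h => absurd h haW) (fun _ => by omega)
    · exact hrem (by omega) (fun h => absurd h haW)

/-- first step down at `u` -/
theorem exch_minus {G : SimpleGraph V} {W : Finset V} {F F₀ : Finset (Sym2 V)} (h : Fam G W F) (h₀ : Fam G W F₀)
    {u : V} (hu : u ∈ W) (hlt : d F₀ u < d F u) :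
    ∃ (F' : Finset (Sym2 V)) (v : V), Fam G W F' ∧ v ∈ W ∧
      (((∀ i ∈ W, (d F' i : ℤ) = d F i - (if i = u then 1 else 0) + (if i = v then 1 else 0)) ∧
          (d F v : ℤ) - (if v = u then 1 else 0) < d F₀ v) ∨
       ((∀ i ∈ W, (d F' i : ℤ) = d F i - (if i = u then 1 else 0) - (if i = v then 1 else 0)) ∧
          (d F₀ v : ℤ) < (d F v : ℤ) - (if v = u then 1 else 0))) := by
  obtain ⟨b, hb, hb'⟩ := exists_diff hlt
  have hub : u ≠ b := by
    have := h.sub _ hb
    rw [SimpleGraph.mem_edgeSet] at this
    exact this.ne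
  have hd : ∀ v, d (F.erase s(u, b)) v + (if v = u ∨ v = b then 1 else 0) = d F v := by
    intro v
    have := d_erase hb v
    simp only [Sym2.mem_iff] at this
    exact this
  obtain ⟨F', v, h1, h2, h3, h4⟩ := walk h₀ (fun v => d F v - if v = u then 1 else 0) _ (F.erase s(u, b)) b rfl
    (fun e he => h.sub e (Finset.mem_of_mem_erase he))
    (fun v hv hvb => by
      have h6 := hd v
      by_cases hvu : v = u
      · subst hvu
        simp only [true_or, if_true] at h6 ⊢
        omega
      · simp only [hvu, hvb, or_self, if_false] at h6 ⊢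
        omega)
    (fun v hv hvb => by
      have h6 := hd v
      have h7 := h.off v hv
      rw [if_neg (by
        rintro (rfl | rfl)
        · exact hv hu
        · exact hvb rfl)] at h6
      omega)
    (by
      have h6 := hd b
      rw [if_pos (Or.inr rfl)] at h6
      by_cases hbW : b ∈ W
      · refine Or.inl ⟨hbW, Or.inr ?_⟩
        simp only [if_neg hub.symm]
        omega
      · have h7 := h.off b hbW
        refine Or.inr ⟨hbW, ?_⟩
        omega)
  refine ⟨F', v, h1, h2, ?_⟩
  have hpos : 0 < d F u := by omega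
  rcases h4 with ⟨h4, h5⟩ | ⟨h4, h5⟩
  · refine Or.inl ⟨fun i hi => ?_, ?_⟩
    · by_cases hiv : i = v
      · subst hiv
        by_cases hiu : i = u
        · subst hiu
          simp only [if_true] at h4 ⊢
          omega
        · simp only [if_true, if_neg hiu] at h4 ⊢
          omega
      · have h6 := h3 i hi hiv
        by_cases hiu : i = u
        · subst hiu
          simp only [if_true, if_neg hiv] at h6 ⊢
          omega
        · simp only [if_neg hiu, if_neg hiv] at h6 ⊢
          omega
    · by_cases hvu : v = u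
      · subst hvu
        simp only [if_true] at h5 ⊢
        omega
      · simp only [if_neg hvu] at h5 ⊢
        omega
  · refine Or.inr ⟨fun i hi => ?_, ?_⟩
    · by_cases hiv : i = v
      · subst hiv
        by_cases hiu : i = u
        · subst hiu
          simp only [if_true] at h4 ⊢
          omega
        · simp only [if_true, if_neg hiu] at h4 ⊢
          omega
      · have h6 := h3 i hi hiv
        by_cases hiu : i = u
        · subst hiu
          simp only [if_true, if_neg hiv] at h6 ⊢
          omega
        · simp only [if_neg hiu, if_neg hiv] at h6 ⊢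
          omega
    · by_cases hvu : v = u
      · subst hvu
        simp only [if_true] at h5 ⊢
        omega
      · simp only [if_neg hvu] at h5 ⊢
        omega

/-- first step up at `u` -/
theorem exch_plus {G : SimpleGraph V} {W : Finset V} {F F₀ : Finset (Sym2 V)} (h : Fam G W F) (h₀ : Fam G W F₀)
    {u : V} (hu : u ∈ W) (hlt : d F u < d F₀ u) :
    ∃ (F' : Finset (Sym2 V)) (v : V), Fam G W F' ∧ v ∈ W ∧
      (((∀ i ∈ W, (d F' i : ℤ) = d F i + (if i = u then 1 else 0) + (if i = v then 1 else 0)) ∧
          (d F v : ℤ) + (if v = u then 1 else 0) < d F₀ v) ∨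
       ((∀ i ∈ W, (d F' i : ℤ) = d F i + (if i = u then 1 else 0) - (if i = v then 1 else 0)) ∧
          (d F₀ v : ℤ) < (d F v : ℤ) + (if v = u then 1 else 0))) := by
  obtain ⟨b, hb, hb'⟩ := exists_diff hlt
  have hub : u ≠ b := by
    have := h₀.sub _ hb
    rw [SimpleGraph.mem_edgeSet] at this
    exact this.ne
  have hd : ∀ v, d (insert s(u, b) F) v = d F v + if v = u ∨ v = b then 1 else 0 := by
    intro v
    rw [d_insert hb']
    simp only [Sym2.mem_iff]
  obtain ⟨F', v, h1, h2, h3, h4⟩ := walk h₀ (fun v => d F v + if v = u then 1 else 0) _ (insert s(u, b) F) b rfl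
    (fun e he => by
      rcases Finset.mem_insert.1 he with rfl | he
      · exact h₀.sub _ hb
      · exact h.sub e he)
    (fun v hv hvb => by
      rw [hd]
      simp only [hvb, or_false])
    (fun v hv hvb => by
      rw [hd, if_neg (by
        rintro (rfl | rfl)
        · exact hv hu
        · exact hvb rfl)]
      exact h.off v hv)
    (by
      rw [hd, if_pos (Or.inr rfl)]
      by_cases hbW : b ∈ W
      · refine Or.inl ⟨hbW, Or.inl ?_⟩
        simp only [if_neg hub.symm, Nat.add_zero]
      · have h7 := h.off b hbW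
        refine Or.inr ⟨hbW, ?_⟩
        omega)
  refine ⟨F', v, h1, h2, ?_⟩
  rcases h4 with ⟨h4, h5⟩ | ⟨h4, h5⟩
  · refine Or.inl ⟨fun i hi => ?_, ?_⟩
    · by_cases hiv : i = v
      · subst hiv
        by_cases hiu : i = u
        · subst hiu
          simp only [if_true] at h4 ⊢
          omega
        · simp only [if_true, if_neg hiu] at h4 ⊢
          omega
      · have h6 := h3 i hi hiv
        by_cases hiu : i = u
        · subst hiu
          simp only [if_true, if_neg hiv] at h6 ⊢
          omega
        · simp only [if_neg hiu, if_neg hiv] at h6 ⊢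
          omega
    · by_cases hvu : v = u
      · subst hvu
        simp only [if_true] at h5 ⊢
        omega
      · simp only [if_neg hvu] at h5 ⊢
        omega
  · refine Or.inr ⟨fun i hi => ?_, ?_⟩
    · by_cases hiv : i = v
      · subst hiv
        by_cases hiu : i = u
        · subst hiu
          simp only [if_true] at h4 ⊢
          omega
        · simp only [if_true, if_neg hiu] at h4 ⊢
          omega
      · have h6 := h3 i hi hiv
        by_cases hiu : i = u
        · subst hiu
          simp only [if_true, if_neg hiv] at h6 ⊢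
          omega
        · simp only [if_neg hiu, if_neg hiv] at h6 ⊢
          omega
    · by_cases hvu : v = u
      · subst hvu
        simp only [if_true] at h5 ⊢
        omega
      · simp only [if_neg hvu] at h5 ⊢
        omega

end H52TF
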