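import Pool.Agent.Lib.H52TF.A

/-!
# The 2-factor and the union form of (R') (plane 2-factors, MP_33911d)
-/

set_option autoImplicit false

namespace H52TF

open Finset

variable {V : Type*} [DecidableEq V]

/-- (R') in the form needed for the Mayer-Vietoris induction -/
theorem partner' [Fintype V] {G : SimpleGraph V} {W T₀ : Finset V} (hW : ¬ TG G W) (hT₀ : TG G T₀) (h₀ : T₀ ⊆ W) :
    ∃ R T₁, R ⊆ W ∧ R.Nonempty ∧ T₁ ⊆ W \ R ∧ TG G T₁ ∧ ∀ T, T ⊆ W → TG G T → ∃ r ∈ R, T ⊆ W.erase r := by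
  obtain ⟨T₁, h1, h2, h3⟩ := partner hW hT₀ h₀
  have key : ∀ T, T ⊆ W → TG G T → ∃ r ∈ W \ T₁, T ⊆ W.erase r := by
    intro T hT hTG
    by_contra hno
    refine h3 T hT hTG (Finset.Subset.antisymm (Finset.union_subset hT h1) fun v hv => ?_)
    by_cases hv1 : v ∈ T₁
    · exact Finset.mem_union_right _ hv1
    · by_cases hvT : v ∈ T
      · exact Finset.mem_union_left _ hvT
      · exact absurd ⟨v, Finset.mem_sdiff.2 ⟨hv, hv1⟩, fun x hx => Finset.mem_erase.2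
          ⟨fun h => hvT (h ▸ hx), hT hx⟩⟩ hno
  refine ⟨W \ T₁, T₁, Finset.sdiff_subset, ?_, ?_, h2, key⟩
  · obtain ⟨r, hr, -⟩ := key T₁ h1 h2
    exact ⟨r, hr⟩
  · intro v hv
    exact Finset.mem_sdiff.2 ⟨h1 hv, fun h => (Finset.mem_sdiff.1 h).2 hv⟩

theorem ncard_neighborSet {F : Finset (Sym2 V)} (hF : ∀ e ∈ F, ¬ e.IsDiag) (v : V) :
    ((SimpleGraph.fromEdgeSet (F : Set (Sym2 V))).neighborSet v).ncard = d F v := by
  classical
  rw [d, ← Set.ncard_coe_finset]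
  refine Set.ncard_congr (fun w _ => s(v, w)) ?_ ?_ ?_
  · intro w hw
    rw [SimpleGraph.mem_neighborSet, SimpleGraph.fromEdgeSet_adj] at hw
    rw [Finset.mem_coe, Finset.mem_filter]
    exact ⟨hw.1, Sym2.mem_mk_left v w⟩
  · intro a b _ _ hab
    rw [Sym2.eq_iff] at hab
    rcases hab with ⟨-, h⟩ | ⟨h1, h2⟩
    · exact h
    · exact h2.trans h1
  · intro e he
    rw [Finset.mem_coe, Finset.mem_filter] at he
    obtain ⟨w, rfl⟩ := Sym2.mem_iff_exists.1 he.2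
    refine ⟨w, ?_, rfl⟩
    rw [SimpleGraph.mem_neighborSet, SimpleGraph.fromEdgeSet_adj]
    exact ⟨he.1, fun h => hF _ he.1 (by rw [h]; exact Sym2.mk_isDiag_iff.2 rfl)⟩

/-- if there is no T-part, there is a 2-factor -/
theorem two_factor [Fintype V] {G : SimpleGraph V} (h : ∀ T, ¬ TG G T) :
    ∃ F ≤ G, ∀ v, (F.neighborSet v).ncard = 2 := by
  have hC : Cov G Finset.univ := by
    by_contra hC
    obtain ⟨T, -, hT⟩ := exists_TG _ _ rfl hC
    exact h T hT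
  obtain ⟨F, h1, h2, h3⟩ := hC
  refine ⟨SimpleGraph.fromEdgeSet (F : Set (Sym2 V)), fun a b hab => ?_, fun v => ?_⟩
  · rw [SimpleGraph.fromEdgeSet_adj] at hab
    exact (SimpleGraph.mem_edgeSet G).1 (h1 _ hab.1)
  · rw [ncard_neighborSet (fun e he => G.not_isDiag_of_mem_edgeSet (h1 e he))]
    exact h3 v (Finset.mem_univ v)

end H52TF
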