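import Pool.Agent.Lib.H52TF.F

/-!
# One additional vertex of degree 2 (spanning s-t path and cycles, MP_33911d)

`plus G s t` is `G` with one new vertex `none` adjacent to `s` and `t`. A 2-factor of `plus G s t` is a spanning
subgraph of `G` in which `s` and `t` have degree 1 and all other vertices degree 2.
-/

set_option autoImplicit false
set_option linter.unusedSectionVars false

namespace H52TF

open Finset

section

variable {V : Type*} [DecidableEq V]

/-- a vertex of degree at most 2 can be added to the members of `TG` -/
theorem TG_insert {G : SimpleGraph V} {p : V} (hp : ∀ F : Finset (Sym2 V), (∀ e ∈ F, e ∈ G.edgeSet) → d F p ≤ 2)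
    {T : Finset V} (hT : TG G T) : TG G (insert p T) := by
  by_cases hpT : p ∈ T
  · rwa [Finset.insert_eq_self.2 hpT]
  intro F hF
  by_contra hbig
  rw [not_lt, Finset.card_insert_of_notMem hpT, Finset.sum_insert hpT] at hbig
  have h2 := hp F hF.sub
  by_cases h1 : d F p = 1
  · obtain ⟨F', v, hF', hv, ⟨h3, h4⟩ | ⟨h3, h4⟩⟩ := exch_minus hF (fam_empty G (insert p T))
      (Finset.mem_insert_self p T) (by
        rw [d_empty]
        omega)
    · rw [d_empty] at h4
      split_ifs at h4 with h5
      · subst h5
        omega
      · omega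
    · rw [d_empty] at h4
      have hvp : v ≠ p := by
        rintro rfl
        rw [if_pos rfl] at h4
        omega
      have hvT : v ∈ T := (Finset.mem_insert.1 hv).resolve_left hvp
      have h5 := h3 p (Finset.mem_insert_self p T)
      rw [if_pos rfl, if_neg hvp.symm] at h5
      have hfam : Fam G T F' := ⟨hF'.sub, fun i hi => by
        by_cases hip : i = p
        · subst hip
          left
          omega
        · exact hF'.off i (fun h => (Finset.mem_insert.1 h).elim hip hi)⟩
      have h6 := hT F' hfam
      have h7 : ((∑ i ∈ T, d F' i : ℕ) : ℤ) = ((∑ i ∈ T, d F i : ℕ) : ℤ) - 1 := by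
        have h8 : ∀ i ∈ T, (d F' i : ℤ) = d F i - (if i = v then 1 else 0) := fun i hi => by
          have h9 := h3 i (Finset.mem_insert_of_mem hi)
          rw [if_neg (show ¬ i = p from fun h => hpT (h ▸ hi)), sub_zero] at h9
          exact h9
        push_cast
        rw [Finset.sum_congr rfl h8, Finset.sum_sub_distrib, Finset.sum_ite_eq', if_pos hvT]
      omega
  · have h6 := hT F ⟨hF.sub, fun i hi => by
      by_cases hip : i = p
      · subst hip
        omega
      · exact hF.off i (fun h => (Finset.mem_insert.1 h).elim hip hi)⟩
    omega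

end

section

variable {V : Type*} [Fintype V] [DecidableEq V]

theorem insertNone_eraseNone (T : Finset (Option V)) : Finset.insertNone (Finset.eraseNone T) = insert none T := by
  ext x
  cases x with
  | none => simp
  | some a => simp

/-- the union form of (R') for the sets `T` with `T + none` in `TG` -/
theorem partner_plus {G' : SimpleGraph (Option V)}
    (hp : ∀ F : Finset (Sym2 (Option V)), (∀ e ∈ F, e ∈ G'.edgeSet) → d F none ≤ 2)
    (W : Finset V) (hW : ¬ TG G' (Finset.insertNone W)) (hT₀ : ∃ T ⊆ W, TG G' (Finset.insertNone T)) :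
    ∃ R ⊆ W, R.Nonempty ∧ (∃ T ⊆ W \ R, TG G' (Finset.insertNone T)) ∧
      ∀ T ⊆ W, TG G' (Finset.insertNone T) → ¬ R ⊆ T := by
  obtain ⟨T₀, h₀, hT₀⟩ := hT₀
  obtain ⟨T₁, h1, h2, h3⟩ := partner hW hT₀ (Finset.insertNone.monotone h₀)
  have h4 : TG G' (Finset.insertNone (Finset.eraseNone T₁)) := by
    rw [insertNone_eraseNone]
    exact TG_insert hp h2
  have h5 : Finset.eraseNone T₁ ⊆ W := fun v hv => by
    have := h1 (Finset.mem_eraseNone.1 hv)
    exact Finset.some_mem_insertNone.1 this
  have key : ∀ T ⊆ W, TG G' (Finset.insertNone T) → ¬ (W \ Finset.eraseNone T₁) ⊆ T := by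
    intro T hT hTG hR
    refine h3 _ (Finset.insertNone.monotone hT) hTG (Finset.Subset.antisymm
      (Finset.union_subset (Finset.insertNone.monotone hT) h1) fun x hx => ?_)
    cases x with
    | none => exact Finset.mem_union_left _ (by simp)
    | some a =>
      have ha : a ∈ W := Finset.some_mem_insertNone.1 hx
      by_cases haT : a ∈ Finset.eraseNone T₁
      · exact Finset.mem_union_right _ (Finset.mem_eraseNone.1 haT)
      · exact Finset.mem_union_left _ (Finset.some_mem_insertNone.2 (hR (Finset.mem_sdiff.2 ⟨ha, haT⟩)))
  refine ⟨W \ Finset.eraseNone T₁, Finset.sdiff_subset, ?_, ⟨Finset.eraseNone T₁, ?_, h4⟩, key⟩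
  · by_contra hno
    rw [Finset.not_nonempty_iff_eq_empty] at hno
    refine key _ h5 h4 ?_
    rw [hno]
    exact Finset.empty_subset _
  · intro v hv
    exact Finset.mem_sdiff.2 ⟨h5 hv, fun h => (Finset.mem_sdiff.1 h).2 hv⟩

/-- `G` with a new vertex `none` adjacent to `s` and `t` -/
def plus (G : SimpleGraph V) (s t : V) : SimpleGraph (Option V) where
  Adj x y := match x, y with
    | some a, some b => G.Adj a b
    | none, some b => b = s ∨ b = t
    | some a, none => a = s ∨ a = t
    | none, none => False
  symm := ⟨fun x y h => by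
    cases x with
    | none => cases y with
      | none => exact h
      | some b => exact h
    | some a => cases y with
      | none => exact h
      | some b => exact SimpleGraph.Adj.symm h⟩
  loopless := ⟨fun x h => by
    cases x with
    | none => exact h
    | some a => exact G.loopless.irrefl a h⟩

theorem plus_mono {G G' : SimpleGraph V} (h : G ≤ G') (s t : V) : plus G s t ≤ plus G' s t := by
  intro x y hxy
  cases x with
  | none => cases y with
    | none => exact hxy
    | some b => exact hxy
  | some a => cases y with
    | none => exact hxy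
    | some b => exact h hxy

theorem d_none_le (G : SimpleGraph V) (s t : V) (F : Finset (Sym2 (Option V)))
    (hF : ∀ e ∈ F, e ∈ (plus G s t).edgeSet) : d F none ≤ 2 := by
  have h1 : (F.filter fun e => none ∈ e) ⊆ {s(none, some s), s(none, some t)} := by
    intro e he
    obtain ⟨h1, h2⟩ := Finset.mem_filter.1 he
    obtain ⟨x, rfl⟩ := Sym2.mem_iff_exists.1 h2
    have h3 := (SimpleGraph.mem_edgeSet _).1 (hF _ h1)
    cases x with
    | none => exact absurd h3 (by exact fun h => h)
    | some b =>
      rcases h3 with rfl | rfl
      · exact Finset.mem_insert_self _ _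
      · exact Finset.mem_insert_of_mem (Finset.mem_singleton_self _)
  exact (Finset.card_le_card h1).trans (Finset.card_le_two)

/-- if no set of the form `T + none` is a T-part, there is a 2-factor of the enlarged graph -/
theorem cov_plus {G' : SimpleGraph (Option V)}
    (hp : ∀ F : Finset (Sym2 (Option V)), (∀ e ∈ F, e ∈ G'.edgeSet) → d F none ≤ 2)
    (h : ∀ T : Finset V, ¬ TG G' (Finset.insertNone T)) : Cov G' Finset.univ := by
  by_contra hC
  obtain ⟨T, -, hT⟩ := exists_TG _ _ rfl hC
  refine h (Finset.eraseNone T) ?_
  rw [insertNone_eraseNone]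
  exact TG_insert hp hT

/-- a 2-factor of `plus G s t` gives a spanning subgraph of `G` in which `s`, `t` have degree 1 and all other vertices
have degree 2 -/
theorem path_factor {G : SimpleGraph V} {s t : V} (hst : s ≠ t) (h : Cov (plus G s t) Finset.univ) :
    ∃ H ≤ G, ∀ v, (H.neighborSet v).ncard = if v = s ∨ v = t then 1 else 2 := by
  classical
  obtain ⟨F, h1, h2, h3⟩ := h
  have hnone : ∀ v, s(none, some v) ∈ F ↔ v = s ∨ v = t := by
    have hsub : (F.filter fun e => none ∈ e) ⊆ {s(none, some s), s(none, some t)} := by
      intro e he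
      obtain ⟨h1', h2'⟩ := Finset.mem_filter.1 he
      obtain ⟨x, rfl⟩ := Sym2.mem_iff_exists.1 h2'
      have h3' := (SimpleGraph.mem_edgeSet _).1 (h1 _ h1')
      cases x with
      | none => exact absurd h3' (by exact fun h => h)
      | some b =>
        rcases h3' with rfl | rfl
        · exact Finset.mem_insert_self _ _
        · exact Finset.mem_insert_of_mem (Finset.mem_singleton_self _)
    have heq : (F.filter fun e => none ∈ e) = {s(none, some s), s(none, some t)} := by
      refine Finset.eq_of_subset_of_card_le hsub ?_
      have h4 : (F.filter fun e => none ∈ e).card = 2 := h3 none (Finset.mem_univ _)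
      rw [h4]
      exact Finset.card_le_two
    intro v
    constructor
    · intro hv
      exact (SimpleGraph.mem_edgeSet _).1 (h1 _ hv)
    · intro hv
      have : s(none, some v) ∈ F.filter fun e => none ∈ e := by
        rw [heq]
        rcases hv with rfl | rfl
        · exact Finset.mem_insert_self _ _
        · exact Finset.mem_insert_of_mem (Finset.mem_singleton_self _)
      exact (Finset.mem_filter.1 this).1
  let H : SimpleGraph V := (SimpleGraph.fromEdgeSet (F : Set (Sym2 (Option V)))).comap some
  have hdiag : ∀ e ∈ F, ¬ e.IsDiag := fun e he => SimpleGraph.not_isDiag_of_mem_edgeSet _ (h1 e he)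
  have hadj : ∀ a b, H.Adj a b ↔ s(some a, some b) ∈ F := fun a b => by
    constructor
    · intro hab
      exact ((SimpleGraph.fromEdgeSet_adj _).1 (SimpleGraph.comap_adj.1 hab)).1
    · intro hab
      exact SimpleGraph.comap_adj.2 ((SimpleGraph.fromEdgeSet_adj _).2 ⟨hab, fun h => hdiag _ hab (by
        rw [h]
        exact Sym2.mk_isDiag_iff.2 rfl)⟩)
  refine ⟨H, fun a b hab => (SimpleGraph.mem_edgeSet _).1 (h1 _ ((hadj a b).1 hab)), fun v => ?_⟩
  have h5 := ncard_neighborSet hdiag (some v)
  rw [h3 (some v) (Finset.mem_univ _)] at h5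
  have h6 : (SimpleGraph.fromEdgeSet (F : Set (Sym2 (Option V)))).neighborSet (some v) =
      some '' (H.neighborSet v) ∪ (if v = s ∨ v = t then {none} else ∅) := by
    ext x
    rw [SimpleGraph.mem_neighborSet, SimpleGraph.fromEdgeSet_adj]
    cases x with
    | none =>
      have h7 := hnone v
      rw [Sym2.eq_swap] at h7
      split_ifs with hv
      · simp [h7, hv]
      · simp [h7, hv]
    | some b =>
      have h7 := hadj v b
      have h8 : (some v ≠ some b) ∨ ¬ s(some v, some b) ∈ F := by
        by_cases hvb : v = b
        · right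
          intro h
          exact hdiag _ h (by rw [hvb]; exact Sym2.mk_isDiag_iff.2 rfl)
        · exact Or.inl fun h => hvb (Option.some.inj h)
      have h9 : some b ∉ (if v = s ∨ v = t then {none} else ∅ : Set (Option V)) := by
        split_ifs <;> simp
      rw [Set.mem_union, Set.mem_image]
      constructor
      · rintro ⟨h10, -⟩
        exact Or.inl ⟨b, h7.2 h10, rfl⟩
      · rintro (⟨c, hc, hcb⟩ | h10)
        · have : c = b := Option.some.inj hcb
          subst this
          have h11 := h7.1 hc
          exact ⟨h11, h8.resolve_right (fun h => h h11)⟩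
        · exact absurd h10 h9
  rw [h6, Set.ncard_union_eq (by
    rw [Set.disjoint_left]
    rintro x ⟨c, -, rfl⟩
    split_ifs <;> simp) (Set.toFinite _) (Set.toFinite _),
    Set.ncard_image_of_injective _ (Option.some_injective V)] at h5
  split_ifs with hv
  · rw [if_pos hv, Set.ncard_singleton] at h5
    omega
  · rw [if_neg hv, Set.ncard_empty] at h5
    omega

end

end H52TF
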